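import Pool.Agent.W622.BK.Stm

/-! # BK-DALT: the forms in `D_n` are alternating maps (helper29) -/

set_option autoImplicit false

namespace Pool.Agent.W29.BK

open Module Pool.Agent.W622.BK

universe u

theorem cur_apply (k : Type u) [Field k] (E : Type u) [AddCommGroup E] [Module k E] {m : ℕ}
    (ω : G k E (m + 1)) (e : E) (w : Fin m → E) :
    cur k E ω e w = ω (Fin.cons e w) := rfl

theorem eval_tail (k : Type u) [Field k] (E : Type u) [AddCommGroup E] [Module k E] {m : ℕ}
    (ω : G k E (m + 1)) (v : Fin (m + 1) → E) :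
    ω v = cur k E ω (v 0) (Fin.tail v) := by
  rw [cur_apply, Fin.cons_self_tail]

theorem key (hA : S_ALT.{u}) (k : Type u) [Field k] (E : Type u) [AddCommGroup E] [Module k E]
    (R : Submodule k (E →ₗ[k] E →ₗ[k] k)) (X : Submodule k (E →ₗ[k] k)) (hR : Alt R) :
    ∀ (n : ℕ) (ω : G k E n), ω ∈ D R X n → ∀ (v : Fin n → E) (i j : Fin n),
      v i = v j → i < j → ω v = 0 := by
  intro n
  induction n with
  | zero => intro ω _ v i; exact i.elim0
  | succ n ih =>
    cases n with
    | zero =>
      intro ω _ v i j _ hij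
      exact absurd hij (by omega)
    | succ n =>
      intro ω hω v i j hv hij
      obtain ⟨hz, hs⟩ := hA k E R X n ω hR hω
      have h1 : ∀ e, cur k E ω e ∈ D R X (n + 1) := hω.1
      obtain ⟨j', rfl⟩ : ∃ j', j = Fin.succ j' := by
        refine Fin.exists_succ_eq.2 ?_ |>.imp fun a ha => ha.symm
        intro h
        rw [h] at hij
        exact absurd hij (Fin.not_lt_zero i)
      refine Fin.cases ?_ (fun i' => ?_) i (motive := fun i => v i = v (Fin.succ j') →
        i < Fin.succ j' → ω v = 0) hv hij
      · intro hv hij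
        refine Fin.cases ?_ (fun j'' => ?_) j' (motive := fun j' => v 0 = v (Fin.succ j') →
          ω v = 0) hv
        · intro hv
          rw [eval_tail, eval_tail]
          have h2 : Fin.tail v 0 = v 0 := hv.symm
          rw [h2, hz (v 0)]
          rfl
        · intro hv
          rw [eval_tail, eval_tail, hs (v 0) (Fin.tail v 0)]
          rw [neg_apply, cur_apply, neg_eq_zero]
          refine ih _ (h1 _) _ 0 (Fin.succ j'') ?_ (Fin.succ_pos _)
          rw [Fin.cons_zero, Fin.cons_succ]
          exact hv
      · intro hv hij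
        rw [eval_tail]
        exact ih _ (h1 _) _ i' j' hv (Fin.succ_lt_succ_iff.1 hij)

theorem t_DALT : S_DALT.{u} := by
  intro hA k _ E _ _ R X n ω hR hω
  refine ⟨{ ω with map_eq_zero_of_eq' := ?_ }, fun v => rfl⟩
  intro v i j hv hij
  rcases lt_or_gt_of_ne hij with h | h
  · exact key hA k E R X hR n ω hω v i j hv h
  · exact key hA k E R X hR n ω hω v j i hv.symm h

end Pool.Agent.W29.BK
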